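import Pool.Agent.R446.ED.Lm

set_option autoImplicit false

/-!
# Moments of zeta and their shifts: positivity off the edges of the spectrum
-/

namespace Pool.Agent.Results.MP_39df77_nt.PositivityOffEdges

open Complex MeasureTheory Filter Topology Set Pool.Agent.TH535.SM Pool.Agent.R446.KR Pool.Agent.R446.ED
open scoped ComplexConjugate

/-- The normalised moment `m_k(T) = M_k(T) / (log T)^(k²)`. For `k = 3` it is `M_3(T) / (log T)^9`. -/
noncomputable def moment (k : ℕ) (T : ℝ) : ℝ :=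
  (1 / T * ∫ t in (0:ℝ)..T, ‖riemannZeta (1 / 2 + t * I)‖ ^ (2 * k)) / Real.log T ^ (k ^ 2)

/-- The normalised shifted moment `Q_k(α,T)`, the mean of
`ζ(1/2 + it + iα/log T)^k ζ(1/2 - it + iα/log T)^k` over `[0, T]` divided by `(log T)^(k²)`. -/
noncomputable def Q (k : ℕ) (α T : ℝ) : ℂ :=
  (T : ℂ)⁻¹ * ((Real.log T : ℂ) ^ (k ^ 2))⁻¹ *
    ∫ t in (0:ℝ)..T, riemannZeta (1 / 2 + I * α / Real.log T + I * t) ^ k *
      riemannZeta (1 / 2 + I * α / Real.log T - I * t) ^ k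

/-- The number `d_k(n)` of ordered factorisations of `n` into `k` positive factors. -/
def dk (k n : ℕ) : ℕ := (Nat.finMulAntidiag k n).card

/-- The arithmetic constant `a_k`. -/
noncomputable def ak (k : ℕ) : ℝ := ∏' p : Nat.Primes, (1 - 1 / (p : ℝ)) ^ (k ^ 2) *
  ∑' m : ℕ, (dk k ((p : ℕ) ^ m) : ℝ) ^ 2 / (p : ℝ) ^ m

/-- The contribution `e_k(α)` of the two edges of the spectrum. -/
noncomputable def edge (k : ℕ) (α : ℝ) : ℝ :=
  2 * ak k * ∫ x in (0:ℝ)..1, x ^ (k ^ 2 - 1) / (k ^ 2 - 1).factorial * Real.cos (α * (k - 2 * x))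

lemma edge_eq (k : ℕ) (α : ℝ) : edge k α = Ee k α := rfl

lemma Q_eq (k : ℕ) (α T : ℝ) : Q k α T =
    Cor (zk k) (α / Real.log T) T / ((NN (k ^ 2) T : ℝ) : ℂ) := Qk_eq k α T

lemma moment_eq (k : ℕ) (T : ℝ) : moment k T = M (zk k) T / NN (k ^ 2) T := by
  unfold moment M NN zk ze
  have e : ∀ t : ℝ, ‖riemannZeta (1 / 2 + t * I) ^ k‖ ^ 2 = ‖riemannZeta (1 / 2 + t * I)‖ ^ (2 * k) := by
    intro t
    rw [norm_pow, ← pow_mul, mul_comm k 2]
  simp_rw [e]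
  rw [one_div_mul_eq_div, div_div]

lemma twist_eq (k : ℕ) (α T : ℝ) : (cexp (I * k * α) * Q k α T).re = Rr k α T / NN (k ^ 2) T := by
  rw [Q_eq]
  unfold Rr
  have e : cexp (I * k * α) * (Cor (zk k) (α / Real.log T) T / ((NN (k ^ 2) T : ℝ) : ℂ)) =
      (((NN (k ^ 2) T)⁻¹ : ℝ) : ℂ) * (cexp ((k * α : ℝ) * I) * Cor (zk k) (α / Real.log T) T) := by
    rw [show (I * k * α : ℂ) = (k * α : ℝ) * I by push_cast; ring]
    push_cast
    ring
  rw [e, Complex.re_ofReal_mul]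
  ring

/-- (1) Every real cosine polynomial which is nonnegative on `|ξ| ≤ k - 2` gives an asymptotic
inequality between the shifted moments and the edge terms. (2) If the twisted shifted moment at one
shift `α` with `(k - 2) |α| < π / 2` has upper limit at most `r`, then
`cos ((k - 2) α) (m_k(T) - e_k(0)) ≤ r - e_k(α) + o(1)`, and if it tends to `r`, then also
`r - e_k(α) - o(1) ≤ m_k(T) - e_k(0)`. -/
theorem result (k : ℕ) (hk : 2 ≤ k) :
    (∀ (n : ℕ) (α c : Fin n → ℝ), (∀ ξ : ℝ, |ξ| ≤ (k:ℝ) - 2 → 0 ≤ ∑ j, c j * Real.cos (α j * ξ)) →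
      ∀ ε : ℝ, 0 < ε → ∃ C X₀ : ℝ, ∀ X : ℝ, X₀ ≤ X → ∃ E : Set ℝ, MeasurableSet E ∧ E ⊆ Icc X (2 * X) ∧
        volume E ≤ ENNReal.ofReal (C * Real.log X ^ 2) ∧
        ∀ T ∈ Icc X (2 * X), T ∉ E →
          (∑ j, c j * edge k (α j)) - ε * (moment k (2 * T) + 1) ≤
            ∑ j, c j * (cexp (I * k * α j) * Q k (α j) T).re) ∧
    ∀ α r : ℝ, |α| * ((k:ℝ) - 2) < Real.pi / 2 →
      (∀ ε : ℝ, 0 < ε → ∀ᶠ T : ℝ in atTop, (cexp (I * k * α) * Q k α T).re ≤ r + ε) →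
      (∀ ε : ℝ, 0 < ε → ∀ᶠ T : ℝ in atTop,
        Real.cos (((k:ℝ) - 2) * α) * (moment k T - edge k 0) ≤ r - edge k α + ε) ∧
      ((∀ ε : ℝ, 0 < ε → ∀ᶠ T : ℝ in atTop, r - ε ≤ (cexp (I * k * α) * Q k α T).re) →
        ∀ ε : ℝ, 0 < ε → ∀ᶠ T : ℝ in atTop, r - edge k α - ε ≤ moment k T - edge k 0) := by
  have hk2 : (2:ℝ) ≤ k := by exact_mod_cast hk
  constructor
  · intro n α c hp ε hε
    obtain ⟨C, X0, _, hX0, h⟩ := main1 k hk (Finset.univ : Finset (Fin n)) α c hp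
      (ε := ε / 2 ^ (k ^ 2 + 1)) (by positivity)
    refine ⟨C, max X0 (Real.exp 1), fun X hX => ?_⟩
    obtain ⟨E, e1, e2, e3, e4⟩ := h X ((le_max_left _ _).trans hX)
    have hfin : volume E ≠ ⊤ :=
      ne_top_of_le_ne_top (by rw [Real.volume_Icc]; exact ENNReal.ofReal_ne_top) (measure_mono e2)
    refine ⟨E, e1, e2, ?_, fun T hT hTE => ?_⟩
    · rw [← ENNReal.ofReal_toReal hfin]
      exact ENNReal.ofReal_le_ofReal e3
    have hTe : Real.exp 1 ≤ T := ((le_max_right _ _).trans hX).trans hT.1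
    have hT2 : 2 ≤ T := by have := Real.exp_one_gt_d9; linarith
    have hN : 0 < NN (k ^ 2) T := lt_of_lt_of_le (by linarith) (NN_ge _ hTe)
    have hN2 : 0 < NN (k ^ 2) (2 * T) := lt_of_lt_of_le (by linarith) (NN_ge _ (hTe.trans (by linarith)))
    have h5 := e4 T hT hTE
    simp only [twist_eq, moment_eq, edge_eq]
    have e5 : ∑ j, c j * (Rr k (α j) T / NN (k ^ 2) T) =
        (∑ j, c j * (cexp ((k * α j : ℝ) * I) * Cor (zk k) (α j / Real.log T) T).re) / NN (k ^ 2) T := by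
      rw [Finset.sum_div]
      refine Finset.sum_congr rfl fun j _ => ?_
      unfold Rr
      ring
    rw [e5, le_div_iff₀ hN]
    have e6 : ∑ j, c j * Ee k (α j) =
        2 * MP_069854_nt.EdgeBands.ak k * (∑ j, c j * Vk k (fun ξ => Real.cos (α j * ξ))) := by
      rw [Finset.mul_sum]
      refine Finset.sum_congr rfl fun j _ => ?_
      unfold Ee
      ring
    rw [e6]
    have hM2 := M_nonneg (zk k) (T := 2 * T) (by linarith)
    have h7 := NN_two (k ^ 2) hT2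
    have h8 : M (zk k) (2 * T) / 2 ^ (k ^ 2 + 1) ≤ M (zk k) (2 * T) / NN (k ^ 2) (2 * T) * NN (k ^ 2) T := by
      rw [div_mul_eq_mul_div, div_le_div_iff₀ (by positivity) hN2]
      calc M (zk k) (2 * T) * NN (k ^ 2) (2 * T) ≤ M (zk k) (2 * T) * (2 ^ (k ^ 2 + 1) * NN (k ^ 2) T) := by gcongr
        _ = _ := by ring
    have h9 : NN (k ^ 2) T / 2 ^ (k ^ 2 + 1) ≤ NN (k ^ 2) T := div_le_self hN.le (one_le_pow₀ (by norm_num))
    have h10 : ε * (M (zk k) (2 * T) / 2 ^ (k ^ 2 + 1)) ≤ ε * (M (zk k) (2 * T) / NN (k ^ 2) (2 * T) * NN (k ^ 2) T) :=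
      mul_le_mul_of_nonneg_left h8 hε.le
    have h11 : ε * (NN (k ^ 2) T / 2 ^ (k ^ 2 + 1)) ≤ ε * NN (k ^ 2) T := mul_le_mul_of_nonneg_left h9 hε.le
    have e7 : ε / 2 ^ (k ^ 2 + 1) * (M (zk k) (2 * T) + NN (k ^ 2) T) =
        ε * (M (zk k) (2 * T) / 2 ^ (k ^ 2 + 1)) + ε * (NN (k ^ 2) T / 2 ^ (k ^ 2 + 1)) := by ring
    rw [e7] at h5
    rw [sub_mul]
    have e8 : ε * (M (zk k) (2 * T) / NN (k ^ 2) (2 * T) + 1) * NN (k ^ 2) T =
        ε * (M (zk k) (2 * T) / NN (k ^ 2) (2 * T) * NN (k ^ 2) T) + ε * NN (k ^ 2) T := by ring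
    rw [e8]
    linarith
  · intro α r hα hup
    have hNev : ∀ᶠ T : ℝ in atTop, 0 < NN (k ^ 2) T := by
      filter_upwards [eventually_ge_atTop (Real.exp 1)] with T hT
      exact lt_of_lt_of_le (lt_of_lt_of_le (Real.exp_pos 1) hT) (NN_ge _ hT)
    have hup' : ∀ ε : ℝ, 0 < ε → ∀ᶠ T : ℝ in atTop, Rr k α T ≤ (r + ε) * NN (k ^ 2) T := by
      intro ε hε
      filter_upwards [hup ε hε, hNev] with T h1 h2
      rw [twist_eq, div_le_iff₀ h2] at h1
      exact h1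
    have hκ0 := kap_pos hα hk2
    constructor
    · intro ε hε
      have hu := upper k hk hα hup' (ε := ε / Real.cos (((k:ℝ) - 2) * α)) (by positivity)
      filter_upwards [hu, hNev] with T h1 h2
      rw [moment_eq]
      simp only [edge_eq]
      have h3 : M (zk k) T / NN (k ^ 2) T ≤
          (r - Ee k α) / Real.cos (((k:ℝ) - 2) * α) + Ee k 0 + ε / Real.cos (((k:ℝ) - 2) * α) := by
        rw [div_le_iff₀ h2]; exact h1
      have h4 : M (zk k) T / NN (k ^ 2) T - Ee k 0 ≤ (r - Ee k α + ε) / Real.cos (((k:ℝ) - 2) * α) := by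
        rw [add_div]; linarith
      rw [le_div_iff₀ hκ0] at h4
      linarith
    · intro hlo ε hε
      have hlo' : ∀ ε : ℝ, 0 < ε → ∀ᶠ T : ℝ in atTop, (r - ε) * NN (k ^ 2) T ≤ Rr k α T := by
        intro ε hε
        filter_upwards [hlo ε hε, hNev] with T h1 h2
        rw [twist_eq, le_div_iff₀ h2] at h1
        exact h1
      obtain ⟨A, T0, hA, hT0⟩ := bounded k hk hα (hup' 1 one_pos)
      filter_upwards [lower' k hk hA hT0 hlo' hε, hNev] with T h1 h2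
      rw [moment_eq]
      simp only [edge_eq]
      rw [← le_div_iff₀ h2] at h1
      linarith

end Pool.Agent.Results.MP_39df77_nt.PositivityOffEdges
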