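import Pool.Agent.R461.HM.Seq
import Pool.Agent.R461.HM.AP

set_option autoImplicit false

/-!
# MP_39df77_nt: the sixth (and every even) moment along vertical arithmetic progressions

For almost every spacing `h > 0` the mean over the points `x + j h`, `j < J`, of an arithmetic progression of heights in
`[T, 2T]` with at least `T^κ` terms (`κ > 0` arbitrarily small) of the local mean of `|ζ|^(2k)` at the scale `1 / log T` is at
least `c (log T)^(k²)`; for `k = 3` this is `c (log T)^9`, the order of the sixth moment.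
-/

namespace Pool.Agent.Results.MP_39df77_nt.VerticalProgressions

open Complex MeasureTheory Filter Topology Set
open scoped ENNReal

noncomputable section

/-- the weighted mean of `|ζ(1/2 + i(t + u))|^(2k)` over `u` at the scale `1 / log T` -/
def local2k (k N : ℕ) (T t : ℝ) : ℝ≥0∞ :=
  ∫⁻ u : ℝ, ENNReal.ofReal (‖riemannZeta (1 / 2 + I * (t + u))‖ ^ (2 * k) * (Real.log T / (1 + Real.log T * |u|) ^ N))

/-- For all integers `k ≥ 1` (`k = 3` is the sixth moment), `N` and all `κ > 0` there is `c > 0` such that for almost every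
`h > 0` there is `T₀` with: for all `T ≥ T₀` and all arithmetic progressions `x, x + h, …, x + (J-1) h` in `[T, 2T]` with
`J ≥ T^κ` terms the mean of the local `2k`-th moments at these heights is at least `c (log T)^(k²)`. -/
theorem result (k : ℕ) (hk : 1 ≤ k) (N : ℕ) (κ : ℝ) (hκ : 0 < κ) :
    ∃ c : ℝ, 0 < c ∧ ∀ᵐ h : ℝ, 0 < h → ∃ T₀ : ℝ, ∀ T : ℝ, T₀ ≤ T → ∀ J : ℕ, T ^ κ ≤ J → ∀ x : ℝ, T ≤ x →
      x + J * h ≤ 2 * T →
      ENNReal.ofReal (c * Real.log T ^ (k ^ 2)) ≤
        (J : ℝ≥0∞)⁻¹ * ∑ j ∈ Finset.range J, local2k k N T (x + j * h) := by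
  obtain ⟨c, T₀, hc, hT₀, hlow⟩ := R461.HM.lower_seq hk N (θ := κ / 20) (θ' := κ / 10) (by positivity) (by linarith)
  refine ⟨c, hc, ?_⟩
  filter_upwards [R461.HM.ap_small hκ] with h hh hpos
  obtain ⟨T₁, hT₁, hsm⟩ := hh hpos
  refine ⟨max T₀ T₁, fun T hT J hJ x hx1 hx2 => ?_⟩
  have hTa := (le_max_left _ _).trans hT
  have hTb := (le_max_right _ _).trans hT
  have hT1 : 1 ≤ T := hT₁.trans hTb
  have hJ1 : 1 ≤ J := by
    have h1 : (1:ℝ) ≤ J := (Real.one_le_rpow hT1 hκ.le).trans hJ
    exact_mod_cast h1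
  exact hlow T hTa J (fun j => x + j * h) hJ1 (fun j hj => by
    have h2 : (j:ℝ) ≤ J := by exact_mod_cast hj.le
    constructor
    · have : 0 ≤ (j:ℝ) * h := by positivity
      linarith
    · have : (j:ℝ) * h ≤ J * h := by gcongr
      linarith) (fun m n hm hn hmn hY => hsm T hTb J hJ x m n hm hn hmn hY)

end

end Pool.Agent.Results.MP_39df77_nt.VerticalProgressions
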